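import Pool.Agent.Helper45.HD.Ad

set_option autoImplicit false

/-! Hidden digits: the total influence of the noise operator. -/

namespace Pool.Agent.Helper81.HD

open Finset
open Pool.Agent.Helper45.HD

lemma step_norm {b k K : ℕ} {t : ℝ} (hb : 2 ≤ b) (hk : k < K) (ht : 0 ≤ t) (ht1 : t ≤ 1)
    (G : ℕ → ℝ) :
    t * Ij b K k G + ∑ n ∈ range (b ^ K), ((1 - t) * G n + t * Ed b k G n) ^ 2 ≤
      ∑ n ∈ range (b ^ K), G n ^ 2 := by
  have h1 := Ed_pyth hb hk G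
  have h2 := Ed_adj hb hk G G
  have h3 : ∑ n ∈ range (b ^ K), Ed b k G n * Ed b k G n = ∑ n ∈ range (b ^ K), Ed b k G n ^ 2 :=
    sum_congr rfl fun n _ => by ring
  rw [h3] at h2
  have h4 : ∑ n ∈ range (b ^ K), ((1 - t) * G n + t * Ed b k G n) ^ 2 =
      (1 - t) ^ 2 * ∑ n ∈ range (b ^ K), G n ^ 2 +
      2 * t * (1 - t) * ∑ n ∈ range (b ^ K), G n * Ed b k G n +
      t ^ 2 * ∑ n ∈ range (b ^ K), Ed b k G n ^ 2 := by
    rw [mul_sum, mul_sum, mul_sum, ← sum_add_distrib, ← sum_add_distrib]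
    exact sum_congr rfl fun n _ => by ring
  have h5 : 0 ≤ Ij b K k G := Ij_nonneg _ _ _ _
  unfold Ij at h5 ⊢
  rw [h4, h2]
  rw [h1] at h5 ⊢
  have h6 := mul_nonneg (mul_nonneg ht (sub_nonneg.2 ht1)) h5
  linear_combination h6

lemma Ij_step_le {b i k K : ℕ} {t : ℝ} (hb : 2 ≤ b) (hk : k < K) (ht : 0 ≤ t) (ht1 : t ≤ 1)
    (G : ℕ → ℝ) :
    Ij b K i (fun n => (1 - t) * G n + t * Ed b k G n) ≤ Ij b K i G := by
  have h1 : Ij b K i (fun n => (1 - t) * G n + t * Ed b k G n) ≤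
      (1 - t) * Ij b K i G + t * Ij b K i (Ed b k G) := by
    unfold Ij
    rw [mul_sum, mul_sum, ← sum_add_distrib]
    refine sum_le_sum fun n _ => ?_
    rw [Ed_add, Ed_smul, Ed_smul]
    have h2 := mul_nonneg (mul_nonneg ht (sub_nonneg.2 ht1))
      (sq_nonneg ((G n - Ed b i G n) - (Ed b k G n - Ed b i (Ed b k G) n)))
    linear_combination h2
  have h2 := mul_le_mul_of_nonneg_left (Ij_Ed_le (i := i) hb hk G) ht
  linarith

lemma Ij_Tn_le {b K : ℕ} {t : ℝ} (hb : 2 ≤ b) (ht : 0 ≤ t) (ht1 : t ≤ 1) (g : ℕ → ℝ) (i : ℕ) :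
    ∀ j, i + j ≤ K → Ij b K i (Tn b t (i + j) g) ≤ Ij b K i (Tn b t i g)
  | 0, _ => le_rfl
  | j + 1, h => (Ij_step_le (i := i) (k := i + j) hb (by omega) ht ht1 (Tn b t (i + j) g)).trans
      (Ij_Tn_le hb ht ht1 g i j (by omega))

lemma sum_Ij_le {b K : ℕ} {t : ℝ} (hb : 2 ≤ b) (ht : 0 ≤ t) (ht1 : t ≤ 1) (g : ℕ → ℝ) :
    ∀ k, k ≤ K → t * ∑ i ∈ range k, Ij b K i (Tn b t i g) +
      ∑ n ∈ range (b ^ K), Tn b t k g n ^ 2 ≤ ∑ n ∈ range (b ^ K), g n ^ 2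
  | 0, _ => by
    rw [range_zero, sum_empty, mul_zero, zero_add]
    exact le_rfl
  | k + 1, h => by
    have h1 := sum_Ij_le (K := K) hb ht ht1 g k (by omega)
    have h2 := step_norm (k := k) (K := K) hb (by omega) ht ht1 (Tn b t k g)
    rw [sum_range_succ, mul_add]
    have h3 : ∑ n ∈ range (b ^ K), Tn b t (k + 1) g n ^ 2 =
        ∑ n ∈ range (b ^ K), ((1 - t) * Tn b t k g n + t * Ed b k (Tn b t k g) n) ^ 2 := rfl
    rw [h3]
    linarith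

/-- (C) -/
theorem stIn : StIn := by
  intro b K t hb ht ht1 g
  have h1 := sum_Ij_le (K := K) hb ht.le ht1 g K le_rfl
  have h2 : 0 ≤ ∑ n ∈ range (b ^ K), Tn b t K g n ^ 2 := sum_nonneg fun _ _ => sq_nonneg _
  rw [le_div_iff₀ ht]
  have h3 : ∑ i ∈ range K, ∑ n ∈ range (b ^ K), (Tn b t K g n - Ed b i (Tn b t K g) n) ^ 2 ≤
      ∑ i ∈ range K, Ij b K i (Tn b t i g) := by
    refine sum_le_sum fun i hi => ?_
    have hi' := mem_range.1 hi
    have h4 := Ij_Tn_le (K := K) hb ht.le ht1 g i (K - i) (by omega)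
    rw [show i + (K - i) = K by omega] at h4
    exact h4
  have h4 := mul_le_mul_of_nonneg_left h3 ht.le
  linarith

end Pool.Agent.Helper81.HD
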